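import Pool.Agent.Q74.PD.Stm10

/-!
# Job PD-Nwl (project PD of helper74)
-/

set_option autoImplicit false

namespace Pool.Agent.Q96.PD

open Finset Filter Topology
open Pool.Agent.H320R2.PD Pool.Agent.Q74.PD

theorem split_valid {d : ℤ} {n m' : ℕ} {b : ℤ} {u : List ℕ} (hl : u.length = n) {q : ℤ}
    (hq : 2 ^ u.sum * b - d * Wo u = 3 ^ n * q) (v : List ℕ) :
    (3 : ℤ) ^ (n + m') ∣ 2 ^ (u ++ v).sum * b - d * Wo (u ++ v) ↔
      (3 : ℤ) ^ m' ∣ 2 ^ v.sum * q - d * Wo v := by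
  have e : (2 : ℤ) ^ (u ++ v).sum * b - d * Wo (u ++ v) = 3 ^ n * (2 ^ v.sum * q - d * Wo v) := by
    rw [Wo_append, List.sum_append, pow_add, hl]
    push_cast
    linear_combination (2 : ℤ) ^ v.sum * hq
  rw [e, pow_add]
  exact mul_dvd_mul_iff_left (pow_ne_zero _ (by norm_num))

theorem Dc_nonneg (d : ℤ) (cap n : ℕ) (a : ℤ) : 0 ≤ Dc d cap n a := by
  unfold Dc
  apply Finset.sum_nonneg
  intro w _
  split_ifs
  · exact mul_nonneg (by positivity) (wwt_nonneg w)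
  · exact le_rfl

/-- the words `u ++ v` with `u` in a set of valid words -/
theorem Dc_split (d : ℤ) (cap n m' : ℕ) (b : ℤ) (S : Finset (List ℕ)) (hS : S ⊆ FW cap n)
    (q : List ℕ → ℤ) (hq : ∀ u ∈ S, 2 ^ u.sum * b - d * Wo u = 3 ^ n * q u) :
    ∑ u ∈ S, 3 ^ n * wwt u * Dc d cap m' (q u) ≤ Dc d cap (n + m') b := by
  classical
  unfold Dc
  rw [sum_FW_add]
  calc ∑ u ∈ S, 3 ^ n * wwt u * ∑ w ∈ FW cap m',
        (if (3 : ℤ) ^ m' ∣ 2 ^ w.sum * q u - d * Wo w then (3 : ℝ) ^ m' * wwt w else 0)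
      = ∑ u ∈ S, ∑ v ∈ FW cap m', (if (3 : ℤ) ^ (n + m') ∣ 2 ^ (u ++ v).sum * b - d * Wo (u ++ v)
          then (3 : ℝ) ^ (n + m') * wwt (u ++ v) else 0) := by
        refine Finset.sum_congr rfl fun u hu => ?_
        rw [Finset.mul_sum]
        refine Finset.sum_congr rfl fun v _ => ?_
        have h1 := split_valid (m' := m') (mem_FW.1 (hS hu)).1 (hq u hu) v
        by_cases h2 : (3 : ℤ) ^ m' ∣ 2 ^ v.sum * q u - d * Wo v
        · rw [if_pos h2, if_pos (h1.2 h2), wwt_append, pow_add]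
          ring
        · rw [if_neg h2, if_neg (fun h => h2 (h1.1 h)), mul_zero]
    _ ≤ _ := by
        refine Finset.sum_le_sum_of_subset_of_nonneg hS fun u _ _ => ?_
        refine Finset.sum_nonneg fun v _ => ?_
        split_ifs
        · exact mul_nonneg (by positivity) (wwt_nonneg _)
        · exact le_rfl

theorem nwl (hD : S_Dlm) : S_Nwl := by
  classical
  intro d hd c hc hc1 k m hm b
  obtain ⟨m', rfl⟩ : ∃ m', m = 3 * k + m' := ⟨m - 3 * k, by omega⟩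
  have hm' : 1 ≤ m' := by omega
  -- for every large cap
  have key : ∀ cap : ℕ, 4 * k ≤ cap →
      (27 / 16 : ℝ) ^ k * Nw d k b * (c - 3 ^ m' * m' * (1 / 2) ^ cap) ≤ Dn d (3 * k + m') b := by
    intro cap hcap
    let q : List ℕ → ℤ := fun u => (2 ^ u.sum * b - d * Wo u) / 3 ^ (3 * k)
    unfold Nw
    set S := ((FW (4 * k) (3 * k)).filter fun w => w.sum = 4 * k ∧
      (3 : ℤ) ^ (3 * k) ∣ 2 ^ (4 * k) * b - d * Wo w ∧
      ¬ (3 : ℤ) ^ (3 * k + 1) ∣ 2 ^ (4 * k) * b - d * Wo w) with hS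
    have hmem : ∀ u ∈ S, u ∈ FW (4 * k) (3 * k) ∧ u.sum = 4 * k ∧
        (3 : ℤ) ^ (3 * k) ∣ 2 ^ (4 * k) * b - d * Wo u ∧
        ¬ (3 : ℤ) ^ (3 * k + 1) ∣ 2 ^ (4 * k) * b - d * Wo u := by
      intro u hu
      rw [hS, Finset.mem_filter] at hu
      exact hu
    have hsub : S ⊆ FW cap (3 * k) := by
      intro u hu
      have h1 := mem_FW.1 (hmem u hu).1
      rw [mem_FW]
      exact ⟨h1.1, fun e he => ⟨(h1.2 e he).1, (h1.2 e he).2.trans hcap⟩⟩
    have hq : ∀ u ∈ S, 2 ^ u.sum * b - d * Wo u = 3 ^ (3 * k) * q u := by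
      intro u hu
      obtain ⟨-, h2, h3, -⟩ := hmem u hu
      rw [← h2] at h3
      exact (Int.mul_ediv_cancel' h3).symm
    have hunit : ∀ u ∈ S, ¬ (3 : ℤ) ∣ q u := by
      intro u hu h
      obtain ⟨-, h2, -, h4⟩ := hmem u hu
      apply h4
      rw [← h2, hq u hu, pow_succ]
      exact mul_dvd_mul_left _ h
    have hone := Dc_split d cap (3 * k) m' b S hsub q hq
    have hDn := ((hD d hd (3 * k + m')).1 cap b).2.1
    refine le_trans ?_ (hone.trans hDn)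
    have hterm : ∀ u ∈ S, (27 / 16 : ℝ) ^ k * (c - 3 ^ m' * m' * (1 / 2) ^ cap) ≤
        3 ^ (3 * k) * wwt u * Dc d cap m' (q u) := by
      intro u hu
      have e1 : (3 : ℝ) ^ (3 * k) * wwt u = (27 / 16) ^ k := by
        unfold wwt
        rw [(hmem u hu).2.1, pow_mul, pow_mul, ← mul_pow]
        norm_num
      rw [e1]
      apply mul_le_mul_of_nonneg_left _ (by positivity)
      have h5 := ((hD d hd m').1 cap (q u)).2.2.2
      have h6 := hc1 m' hm' (q u) (hunit u hu)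
      linarith
    calc (27 / 16 : ℝ) ^ k * (S.card : ℝ) * (c - 3 ^ m' * m' * (1 / 2) ^ cap)
        = ∑ _u ∈ S, (27 / 16 : ℝ) ^ k * (c - 3 ^ m' * m' * (1 / 2) ^ cap) := by
          rw [Finset.sum_const, nsmul_eq_mul]
          ring
      _ ≤ _ := Finset.sum_le_sum hterm
  have hlim : Tendsto (fun cap : ℕ =>
      (27 / 16 : ℝ) ^ k * Nw d k b * (c - 3 ^ m' * m' * (1 / 2) ^ cap)) atTop
      (𝓝 ((27 / 16 : ℝ) ^ k * Nw d k b * (c - 3 ^ m' * m' * 0))) := by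
    apply Tendsto.const_mul
    apply Tendsto.const_sub
    apply Tendsto.const_mul
    exact tendsto_pow_atTop_nhds_zero_of_lt_one (by norm_num) (by norm_num)
  have hfin := le_of_tendsto hlim ((eventually_ge_atTop (4 * k)).mono key)
  calc c * (27 / 16) ^ k * Nw d k b = (27 / 16 : ℝ) ^ k * Nw d k b * (c - 3 ^ m' * m' * 0) := by ring
    _ ≤ _ := hfin

end Pool.Agent.Q96.PD
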