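import Pool.Agent.Q74.PD.Stm10

/-!
# Job PD-Nwp (project PD of helper74)
-/

set_option autoImplicit false

namespace Pool.Agent.Q96.PD

open Finset Filter Topology
open Pool.Agent.H320R2.PD Pool.Agent.Q74.PD

theorem Dn_nonneg (hD : S_Dlm) {d : ℤ} (hd : IsCoprime d 3) (n : ℕ) (a : ℤ) : 0 ≤ Dn d n a :=
  (((hD d hd n).1 0 a).1).trans ((hD d hd n).1 0 a).2.1

theorem ev_small {A r : ℝ} (hr0 : 0 < r) (hr1 : r < 1) :
    ∀ᶠ k : ℕ in atTop, A * (4 * k + 1) * r ^ k ≤ 1 := by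
  have h1 : Tendsto (fun k : ℕ => (k : ℝ) * r ^ k) atTop (𝓝 0) :=
    tendsto_self_mul_const_pow_of_lt_one hr0.le hr1
  have h2 : Tendsto (fun k : ℕ => r ^ k) atTop (𝓝 0) :=
    tendsto_pow_atTop_nhds_zero_of_lt_one hr0.le hr1
  have h3 : Tendsto (fun k : ℕ => A * (4 * ((k : ℝ) * r ^ k) + r ^ k)) atTop
      (𝓝 (A * (4 * 0 + 0))) := ((h1.const_mul 4).add h2).const_mul A
  have h4 : A * (4 * 0 + 0) < 1 := by norm_num
  filter_upwards [h3.eventually (gt_mem_nhds h4)] with k hk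
  calc A * (4 * k + 1) * r ^ k = A * (4 * ((k : ℝ) * r ^ k) + r ^ k) := by ring
    _ ≤ 1 := hk.le

theorem nwp (hD : S_Dlm) (hU : S_Utl) (hl : S_Nwl) (hc : S_Nwc) : S_Nwp := by
  classical
  intro c hc0 ε hε
  let ε' : ℝ := ε / (4 + 2 * ε)
  have hε' : 0 < ε' := by positivity
  have hε'e : ε' * (1 + ε / 2) = ε / 4 := by
    show ε / (4 + 2 * ε) * (1 + ε / 2) = ε / 4
    field_simp
    ring
  obtain ⟨C1, hC1, hU1⟩ := hU ε' hε'
  let r : ℝ := (27 / 16 : ℝ) ^ (-(ε / 4))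
  have hr0 : 0 < r := Real.rpow_pos_of_pos (by norm_num) _
  have hr1 : r < 1 := Real.rpow_lt_one_of_one_lt_of_neg (by norm_num) (by linarith)
  let A : ℝ := C1 * c ^ (ε' - 2) * 6 + 6
  have hcp : 0 < c ^ (ε' - 2) := Real.rpow_pos_of_pos hc0 _
  have hA1 : 6 ≤ A := by
    show 6 ≤ C1 * c ^ (ε' - 2) * 6 + 6
    have : 0 < C1 * c ^ (ε' - 2) * 6 := by positivity
    linarith
  have hA2 : C1 * c ^ (ε' - 2) * 6 ≤ A := by
    show C1 * c ^ (ε' - 2) * 6 ≤ C1 * c ^ (ε' - 2) * 6 + 6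
    linarith
  have hMlim : ∀ᶠ k : ℕ in atTop, 1 ≤ c * (27 / 16 : ℝ) ^ k := by
    have h1 : Tendsto (fun k : ℕ => (27 / 16 : ℝ) ^ k) atTop atTop :=
      tendsto_pow_atTop_atTop_of_one_lt (by norm_num)
    filter_upwards [h1.eventually_ge_atTop (1 / c)] with k hk
    rw [div_le_iff₀ hc0] at hk
    linarith
  obtain ⟨k0, hk0⟩ := eventually_atTop.1 ((ev_small (A := A) hr0 hr1).and hMlim)
  have hCge : (1 : ℝ) ≤ 3 ^ (3 * k0 + 1) := one_le_pow₀ (by norm_num)
  refine ⟨3 ^ (3 * k0 + 1), by positivity, fun d hd hc1 k hk => ?_⟩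
  obtain ⟨-, hsum⟩ := hc d hd k hk
  have hM1 : (1 : ℝ) ≤ (27 / 16 : ℝ) ^ k := one_le_pow₀ (by norm_num)
  rcases Nat.lt_or_ge k k0 with hlt | hge
  · -- small `k`
    have hcard : (1 : ℝ) ≤
        (((range (3 ^ (3 * k + 1))).filter fun b : ℕ => 1 ≤ Nw d k b).card : ℝ) := by
      have h1 : 0 < ((range (3 ^ (3 * k + 1))).filter fun b : ℕ => 1 ≤ Nw d k b).card := by
        rw [Finset.card_pos]
        by_contra hne
        rw [Finset.not_nonempty_iff_eq_empty] at hne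
        have h2 : ∑ b ∈ range (3 ^ (3 * k + 1)), (Nw d k b : ℝ) = 0 := by
          apply Finset.sum_eq_zero
          intro b hb
          by_contra h3
          have h4 : b ∈ (range (3 ^ (3 * k + 1))).filter fun b : ℕ => 1 ≤ Nw d k b := by
            rw [Finset.mem_filter]
            refine ⟨hb, ?_⟩
            have h5 : Nw d k b ≠ 0 := fun h => h3 (by rw [h]; norm_num)
            omega
          rw [hne] at h4
          exact absurd h4 (Finset.notMem_empty _)
        rw [h2] at hsum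
        have : (0 : ℝ) < (256 / 27 : ℝ) ^ k / (4 * k + 1) := by positivity
        linarith
      exact_mod_cast h1
    refine le_trans ?_ hcard
    have h1 : ((27 / 16 : ℝ) ^ k) ^ (-2 - ε) ≤ 1 :=
      Real.rpow_le_one_of_one_le_of_nonpos hM1 (by linarith)
    have h2 : (3 : ℝ) ^ (3 * k + 1) ≤ 3 ^ (3 * k0 + 1) := pow_le_pow_right₀ (by norm_num) (by omega)
    rw [div_mul_eq_mul_div, div_le_one (by positivity)]
    calc ((27 / 16 : ℝ) ^ k) ^ (-2 - ε) * 3 ^ (3 * k + 1) ≤ 1 * 3 ^ (3 * k0 + 1) := by gcongr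
      _ = _ := one_mul _
  · -- large `k`
    obtain ⟨hE1, hE2⟩ := hk0 k hge
    obtain ⟨M, hM⟩ : ∃ M : ℝ, M = (27 / 16 : ℝ) ^ k := ⟨_, rfl⟩
    obtain ⟨X, hX⟩ : ∃ X : ℝ, X = (3 : ℝ) ^ (3 * k + 1) := ⟨_, rfl⟩
    rw [← hM] at hE2 hM1 ⊢
    have hM0 : 0 < M := by linarith
    have hX0 : 0 < X := by rw [hX]; positivity
    let K : ℝ := M ^ (ε / 2)
    let u : ℝ := M ^ (-(ε / 2))
    let P : ℝ := M ^ (-2 : ℝ)
    have hK1 : 1 ≤ K := Real.one_le_rpow hM1 (by linarith)
    have hK0 : 0 < K := by linarith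
    have hu0 : 0 < u := Real.rpow_pos_of_pos hM0 _
    have hP0 : 0 < P := Real.rpow_pos_of_pos hM0 _
    have hKu : K * u = 1 := by
      show M ^ (ε / 2) * M ^ (-(ε / 2)) = 1
      rw [← Real.rpow_add hM0, add_neg_cancel, Real.rpow_zero]
    have hPM : P * M ^ 2 = 1 := by
      show M ^ (-2 : ℝ) * M ^ 2 = 1
      rw [← Real.rpow_natCast M 2, ← Real.rpow_add hM0]
      norm_num
    have h256 : (256 / 27 : ℝ) ^ k = P * (X / 3) := by
      have h1 : (256 / 27 : ℝ) ^ k * M ^ 2 = X / 3 := by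
        have h2 : (3 : ℝ) ^ (3 * k + 1) = 27 ^ k * 3 := by
          rw [pow_succ, pow_mul]
          norm_num
        rw [hM, hX, h2, ← pow_mul, mul_comm k 2, pow_mul, ← mul_pow]
        norm_num
      calc (256 / 27 : ℝ) ^ k = (256 / 27 : ℝ) ^ k * (P * M ^ 2) := by rw [hPM, mul_one]
        _ = P * ((256 / 27 : ℝ) ^ k * M ^ 2) := by ring
        _ = _ := by rw [h1]
    have hrk : r ^ k = M ^ (-(ε / 4)) := by
      rw [hM, ← Real.rpow_natCast (27 / 16 : ℝ) k, ← Real.rpow_mul (by norm_num),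
        mul_comm, Real.rpow_mul (by norm_num), Real.rpow_natCast]
    have hrk0 : 0 < r ^ k := by positivity
    have hrk1 : r ^ k ≤ 1 := pow_le_one₀ hr0.le hr1.le
    have hu2 : u = r ^ k * r ^ k := by
      rw [hrk]
      show M ^ (-(ε / 2)) = M ^ (-(ε / 4)) * M ^ (-(ε / 4))
      rw [← Real.rpow_add hM0]
      congr 1
      ring
    have hk1 : (0 : ℝ) < 4 * k + 1 := by positivity
    -- pointwise
    obtain ⟨n1, hn1⟩ : ∃ n1 : ℕ, n1 = 3 ^ (3 * k + 1) := ⟨_, rfl⟩
    have hpt : ∀ b ∈ range (3 ^ (3 * k + 1)), (Nw d k b : ℝ) ≤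
        K * (if 1 ≤ Nw d k b then (1 : ℝ) else 0) +
          1 / (c * M) * (if c * M * K < Dn d (3 * k + 1) b then Dn d (3 * k + 1) b else 0) := by
      intro b _
      have hDn := Dn_nonneg hD hd (3 * k + 1) (b : ℤ)
      have hlow := hl d hd c hc0 hc1 k (3 * k + 1) le_rfl (b : ℤ)
      rw [← hM] at hlow
      have hcM : 0 < c * M := by positivity
      have hsec : 0 ≤ 1 / (c * M) *
          (if c * M * K < Dn d (3 * k + 1) b then Dn d (3 * k + 1) b else 0) := by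
        split_ifs
        · positivity
        · simp
      by_cases h1 : 1 ≤ Nw d k b
      · rw [if_pos h1]
        by_cases h2 : (Nw d k b : ℝ) ≤ K
        · linarith
        · push Not at h2
          have h3 : c * M * K < Dn d (3 * k + 1) b :=
            lt_of_lt_of_le (mul_lt_mul_of_pos_left h2 hcM) hlow
          rw [if_pos h3]
          have h4 : (Nw d k b : ℝ) ≤ 1 / (c * M) * Dn d (3 * k + 1) b := by
            rw [one_div, inv_mul_eq_div, le_div_iff₀ hcM]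
            linarith
          linarith
      · rw [if_neg h1]
        have h2 : Nw d k b = 0 := by omega
        rw [h2]
        push_cast
        linarith
    have hS1 : ∑ b ∈ range (3 ^ (3 * k + 1)), (Nw d k b : ℝ) ≤
        K * (((range (3 ^ (3 * k + 1))).filter fun b : ℕ => 1 ≤ Nw d k b).card : ℝ) +
          1 / (c * M) * (C1 * (c * M * K) ^ (ε' - 1) * X) := by
      refine (Finset.sum_le_sum hpt).trans ?_
      rw [Finset.sum_add_distrib, ← Finset.mul_sum, ← Finset.mul_sum, Finset.natCast_card_filter]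
      have ht : 1 ≤ c * M * K := by
        calc (1 : ℝ) = 1 * 1 := (mul_one 1).symm
          _ ≤ c * M * K := mul_le_mul hE2 hK1 zero_le_one (by positivity)
      have h1 := hU1 d hd (3 * k + 1) (c * M * K) ht
      rw [← hX] at h1
      have h2 : (0 : ℝ) ≤ 1 / (c * M) := by positivity
      gcongr
    have hexp : 1 / (c * M) * (C1 * (c * M * K) ^ (ε' - 1) * X) =
        C1 * c ^ (ε' - 2) * (P * r ^ k) * X := by
      have e1 : (c * M * K) ^ (ε' - 1) = c ^ (ε' - 1) * M ^ (ε' - 1) * M ^ (ε / 2 * (ε' - 1)) := by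
        rw [Real.mul_rpow (by positivity) hK0.le, Real.mul_rpow hc0.le hM0.le,
          Real.rpow_mul hM0.le]
      have e2 : c ^ (ε' - 2) = c⁻¹ * c ^ (ε' - 1) := by
        rw [← Real.rpow_neg_one, ← Real.rpow_add hc0]
        congr 1
        ring
      have e3 : P * r ^ k = M⁻¹ * (M ^ (ε' - 1) * M ^ (ε / 2 * (ε' - 1))) := by
        have h9 : P * M ^ (-(ε / 4)) = M ^ (-2 + -(ε / 4)) := (Real.rpow_add hM0 _ _).symm
        rw [hrk, h9, ← Real.rpow_neg_one, ← Real.rpow_add hM0, ← Real.rpow_add hM0]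
        congr 1
        linear_combination -hε'e
      rw [e1, e2, e3, one_div, mul_inv]
      ring
    rw [hexp] at hS1
    have hS2 := hsum.trans hS1
    rw [h256] at hS2
    obtain ⟨Z, hZ⟩ : ∃ Z : ℝ,
      Z = (((range (3 ^ (3 * k + 1))).filter fun b : ℕ => 1 ≤ Nw d k b).card : ℝ) := ⟨_, rfl⟩
    rw [← hZ] at hS2 ⊢
    -- the small term
    have hsmall : C1 * c ^ (ε' - 2) * (P * r ^ k) * X ≤ P * X / (6 * (4 * k + 1)) := by
      rw [le_div_iff₀ (by positivity)]
      have h1 : C1 * c ^ (ε' - 2) * 6 * (4 * k + 1) * r ^ k ≤ 1 := by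
        refine le_trans ?_ hE1
        gcongr
      calc C1 * c ^ (ε' - 2) * (P * r ^ k) * X * (6 * (4 * k + 1))
          = (C1 * c ^ (ε' - 2) * 6 * (4 * k + 1) * r ^ k) * (P * X) := by ring
        _ ≤ 1 * (P * X) := mul_le_mul_of_nonneg_right h1 (by positivity)
        _ = P * X := one_mul _
    have hKZ : P * X / (6 * (4 * k + 1)) ≤ K * Z := by
      have e1 : P * (X / 3) / (4 * k + 1) = P * X / (6 * (4 * k + 1)) + P * X / (6 * (4 * k + 1)) := by
        field_simp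
        ring
      linarith
    have hZ2 : u * (P * X / (6 * (4 * k + 1))) ≤ Z := by
      calc u * (P * X / (6 * (4 * k + 1))) ≤ u * (K * Z) := mul_le_mul_of_nonneg_left hKZ hu0.le
        _ = (K * u) * Z := by ring
        _ = Z := by rw [hKu, one_mul]
    refine le_trans ?_ hZ2
    have e4 : M ^ (-2 - ε) = P * u * u := by
      show M ^ (-2 - ε) = M ^ (-2 : ℝ) * M ^ (-(ε / 2)) * M ^ (-(ε / 2))
      rw [← Real.rpow_add hM0, ← Real.rpow_add hM0]
      congr 1
      ring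
    have h7 : u ≤ 1 / (6 * (4 * k + 1)) := by
      rw [le_div_iff₀ (by positivity)]
      have h8 : u ≤ r ^ k := by
        rw [hu2]
        calc r ^ k * r ^ k ≤ r ^ k * 1 := mul_le_mul_of_nonneg_left hrk1 hrk0.le
          _ = r ^ k := mul_one _
      calc u * (6 * (4 * k + 1)) ≤ r ^ k * (A * (4 * k + 1)) := by gcongr
        _ = A * (4 * k + 1) * r ^ k := by ring
        _ ≤ 1 := hE1
    rw [e4, ← hX]
    calc P * u * u / 3 ^ (3 * k0 + 1) * X ≤ P * u * u * X := by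
          apply mul_le_mul_of_nonneg_right _ hX0.le
          exact div_le_self (by positivity) hCge
      _ ≤ P * u * (1 / (6 * (4 * k + 1))) * X := by gcongr
      _ = _ := by ring

end Pool.Agent.Q96.PD
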